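import Pool.Agent.Helper82.RD.Defs

/-!
# Project GD (MP_86d903_lc): all rounding directions, definitions
-/

set_option autoImplicit false

open Finset MP86d903 Pool.Agent.Helper82.RD

namespace Pool.Agent.Helper12.GD

variable {ι V : Type} [DecidableEq ι] [Fintype V] [DecidableEq V]

/-- two variables outside `A` are equal or lie in a common clause -/
def Ad (vs : ι → Finset V) (A : Finset V) (x y : V) : Prop :=
  x ∉ A ∧ y ∉ A ∧ (x = y ∨ ∃ c, x ∈ vs c ∧ y ∈ vs c)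

/-- at most seven steps outside `A` -/
def W7 (vs : ι → Finset V) (A : Finset V) (x y : V) : Prop :=
  ∃ a b c d e f, Ad vs A x a ∧ Ad vs A a b ∧ Ad vs A b c ∧ Ad vs A c d ∧ Ad vs A d e ∧
    Ad vs A e f ∧ Ad vs A f y

open Classical in
/-- the variables at distance at most seven outside `A` -/
noncomputable def N7 (vs : ι → Finset V) (A : Finset V) (x : V) : Finset V :=
  univ.filter (fun y => W7 vs A x y)

/-- The states: `Z = Cl (T₁ ∪ T) ∪ J` with a valid assignment, all vectors of `Λ` are even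
outside `Z`. -/
def Fg (vs ng : ι → Finset V) (q q₀ : ℕ) (T₀ T₁ : Finset V) (ρ₀ : V → Bool) (w r : ℕ)
    (Λ : Submodule (ZMod 2) (V → ZMod 2)) (Z : Finset V) (ρ : V → Bool) : Prop :=
  ∃ T J : Finset V, Z = Cl vs q (T₁ ∪ T) ∪ J ∧ J.card ≤ 2 * r ∧ T.card ≤ w ∧
    SPa vs q₀ Z ∧ SPb vs Z ∧ Valid vs ng ρ Z ∧ (∀ i ∈ Cl vs q T₀, ρ i = ρ₀ i) ∧
    ∀ b ∈ Λ, ∑ i ∈ Zᶜ, b i = 0

/-- the inequality `∑ a i * x i ≥ b` holds at all states -/
def Hg (vs ng : ι → Finset V) (q q₀ : ℕ) (T₀ T₁ : Finset V) (ρ₀ : V → Bool) (w r : ℕ)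
    (Λ : Submodule (ZMod 2) (V → ZMod 2)) (a : V → ℤ) (b : ℤ) : Prop :=
  ∀ Z ρ, Fg vs ng q q₀ T₀ T₁ ρ₀ w r Λ Z ρ → 2 * b ≤ ∑ i, a i * pt Z ρ i

end Pool.Agent.Helper12.GD
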