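import Pool.Agent.Helper12.GD.Lin
import Pool.Agent.Helper58.RD.EXT
import Pool.Agent.Helper80.CP.Det
import Pool.Agent.Helper82.RD.M_COR
import Pool.Agent.Helper83.RD.M_TRI
import Pool.Agent.Helper94.RD.M_DEG

/-!
# Project GD: the deterministic part
-/

set_option autoImplicit false

open Finset MP86d903 Pool.Agent.Helper82.RD

namespace Pool.Agent.Helper12.GD

section Rules

set_option linter.unusedSectionVars false

variable {ι V : Type} [DecidableEq ι] [Fintype ι] [Fintype V] [DecidableEq V]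
  {vs ng : ι → Finset V} {q q₀ : ℕ}

theorem hg_comb {T₀ T₁ : Finset V} {ρ₀ : V → Bool} {w r : ℕ}
    {Λ : Submodule (ZMod 2) (V → ZMod 2)} (a a₁ a₂ : V → ℤ) (b b₁ b₂ : ℤ) (α β : ℕ)
    (ha : ∀ i, a i = α * a₁ i + β * a₂ i) (hb : b = α * b₁ + β * b₂)
    (h₁ : Hg vs ng q q₀ T₀ T₁ ρ₀ w r Λ a₁ b₁) (h₂ : Hg vs ng q q₀ T₀ T₁ ρ₀ w r Λ a₂ b₂) :
    Hg vs ng q q₀ T₀ T₁ ρ₀ w r Λ a b := by
  intro Z ρ hF
  have e1 := h₁ Z ρ hF
  have e2 := h₂ Z ρ hF
  have e3 : ∑ i, a i * pt Z ρ i =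
      α * ∑ i, a₁ i * pt Z ρ i + β * ∑ i, a₂ i * pt Z ρ i := by
    rw [mul_sum, mul_sum, ← sum_add_distrib]
    refine sum_congr rfl (fun i _ => ?_)
    rw [ha i]
    ring
  rw [e3, hb]
  have f1 := mul_le_mul_of_nonneg_left e1 (Int.natCast_nonneg α)
  have f2 := mul_le_mul_of_nonneg_left e2 (Int.natCast_nonneg β)
  linarith

theorem hg_lower {T₀ T₁ : Finset V} {ρ₀ : V → Bool} {w r : ℕ}
    {Λ : Submodule (ZMod 2) (V → ZMod 2)} (v : V) :
    Hg vs ng q q₀ T₀ T₁ ρ₀ w r Λ (Pi.single v 1) 0 := by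
  intro Z ρ _
  rw [Finset.sum_eq_single v]
  · have := pt_nonneg Z ρ v
    simp
    exact this
  · intro i _ hi
    rw [Pi.single_eq_of_ne hi, zero_mul]
  · intro h
    exact absurd (mem_univ v) h

theorem hg_upper {T₀ T₁ : Finset V} {ρ₀ : V → Bool} {w r : ℕ}
    {Λ : Submodule (ZMod 2) (V → ZMod 2)} (v : V) :
    Hg vs ng q q₀ T₀ T₁ ρ₀ w r Λ (Pi.single v (-1)) (-1) := by
  intro Z ρ _
  rw [Finset.sum_eq_single v]
  · have := pt_le_two Z ρ v
    simp
    omega
  · intro i _ hi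
    rw [Pi.single_eq_of_ne hi, zero_mul]
  · intro h
    exact absurd (mem_univ v) h

/-- division with a conclusion in `Λ` -/
theorem hg_even {T₀ T₁ : Finset V} {ρ₀ : V → Bool} {w r : ℕ}
    {Λ : Submodule (ZMod 2) (V → ZMod 2)} {a a' : V → ℤ} {b b' : ℤ} {c : ℕ} (hc : 1 ≤ c)
    (ha : ∀ i, a i = c * a' i) (hb : b' = ⌈(b : ℚ) / c⌉) (hmem : vv a' ∈ Λ)
    (hH : Hg vs ng q q₀ T₀ T₁ ρ₀ w r Λ a b) : Hg vs ng q q₀ T₀ T₁ ρ₀ w r Λ a' b' := by
  intro Z ρ hF
  have h1 := hH Z ρ hF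
  obtain ⟨T, J, -, -, -, -, -, -, -, hev⟩ := hF
  have hav : ∑ i, a i * pt Z ρ i = (c : ℤ) * ∑ i, a' i * pt Z ρ i := by
    rw [mul_sum]
    refine sum_congr rfl (fun i _ => ?_)
    rw [ha i]
    ring
  rw [hav] at h1
  have h2 : ((∑ i, a' i * pt Z ρ i : ℤ) : ZMod 2) = 0 := by
    rw [mCOR_par]
    exact hev _ hmem
  rw [ZMod.intCast_zmod_eq_zero_iff_dvd] at h2
  obtain ⟨k, hk⟩ : ∃ k : ℤ, ∑ i, a' i * pt Z ρ i = 2 * k := by exact_mod_cast h2
  rw [hk] at h1 ⊢
  have := mCOR_even hc hb h1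
  omega

/-- division with a conclusion of small support -/
theorem hg_nar {T₀ T₁ : Finset V} {ρ₀ : V → Bool} {w w' e r M : ℕ}
    {Λ : Submodule (ZMod 2) (V → ZMod 2)} (hT : T₀ ⊆ T₁)
    (hI : ∀ T : Finset V, T.card ≤ M → (inside vs (Cl vs q T)).card ≤ q₀)
    (hM : T₁.card + w' + w + e + 4 * r ≤ M) (hw : w + e ≤ w')
    (hNXT : ∀ G : Finset V, T₁ ⊆ G → ∃ E J : Finset V, E.card ≤ e ∧ J.card ≤ 2 * r ∧
      SPa vs q₀ (Cl vs q (G ∪ E) ∪ J) ∧ SPb vs (Cl vs q (G ∪ E) ∪ J) ∧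
      ∀ b ∈ Λ, ∑ i ∈ (Cl vs q (G ∪ E) ∪ J)ᶜ, b i = 0)
    {a a' : V → ℤ} {b b' : ℤ} {c : ℕ} (hc : 1 ≤ c) (ha : ∀ i, a i = c * a' i)
    (hb : b' = ⌈(b : ℚ) / c⌉) (hsupp : (univ.filter (fun i => a' i ≠ 0)).card ≤ w)
    (hH : Hg vs ng q q₀ T₀ T₁ ρ₀ w' r Λ a b) : Hg vs ng q q₀ T₀ T₁ ρ₀ w' r Λ a' b' := by
  rintro Z ρ ⟨T, J, hZ, hJ, hTc, hSPa, hSPb, hval, hρ₀, -⟩
  obtain ⟨W, hW⟩ : ∃ W, W = univ.filter (fun i => a' i ≠ 0) := ⟨_, rfl⟩
  rw [← hW] at hsupp
  obtain ⟨E, J', hEc, hJ'c, hspa, hspb, hevn⟩ := hNXT (T₁ ∪ W) subset_union_left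
  have hass : T₁ ∪ W ∪ E = T₁ ∪ (W ∪ E) := union_assoc _ _ _
  obtain ⟨Z', hZ'⟩ : ∃ Z', Z' = Cl vs q (T₁ ∪ (W ∪ E)) ∪ J' := ⟨_, rfl⟩
  rw [hass] at hspa hspb hevn
  rw [← hZ'] at hspa hspb hevn
  obtain ⟨U, hU⟩ : ∃ U, U = T₁ ∪ T ∪ J ∪ W ∪ E ∪ J' := ⟨_, rfl⟩
  have hTU : T₁ ∪ T ⊆ U := by
    rw [hU]
    intro x hx
    simp only [mem_union] at hx ⊢
    tauto
  have hJU : J ⊆ U := by
    rw [hU]
    intro x hx
    simp only [mem_union]
    tauto
  have hWEU : T₁ ∪ (W ∪ E) ⊆ U := by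
    rw [hU]
    intro x hx
    simp only [mem_union] at hx ⊢
    tauto
  have hJ'U : J' ⊆ U := by
    rw [hU]
    intro x hx
    simp only [mem_union]
    tauto
  obtain ⟨B, hB⟩ : ∃ B, B = Cl vs q U := ⟨_, rfl⟩
  have hZB : Z ⊆ B := by
    rw [hZ, hB]
    exact union_subset (Cl_mono hTU) (hJU.trans (subset_Cl q _))
  have hZ'B : Z' ⊆ B := by
    rw [hZ', hB]
    exact union_subset (Cl_mono hWEU) (hJ'U.trans (subset_Cl q _))
  have hUc : U.card ≤ M := by
    have e1 : U.card ≤ T₁.card + T.card + J.card + W.card + E.card + J'.card := by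
      rw [hU]
      refine (card_union_le _ _).trans (Nat.add_le_add_right ?_ _)
      refine (card_union_le _ _).trans (Nat.add_le_add_right ?_ _)
      refine (card_union_le _ _).trans (Nat.add_le_add_right ?_ _)
      refine (card_union_le _ _).trans (Nat.add_le_add_right ?_ _)
      exact card_union_le _ _
    omega
  have hBq : (inside vs B).card ≤ q₀ := by
    rw [hB]
    exact hI U hUc
  obtain ⟨σ, hσZ, hv1, hv2⟩ := Pool.Agent.Helper58.RD.pEXT (ng := ng) hSPa hSPb hBq hval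
  have h0Z : Cl vs q T₀ ⊆ Z := by
    rw [hZ]
    exact (Cl_mono (hT.trans subset_union_left)).trans subset_union_left
  have hWZ' : W ⊆ Z' := by
    rw [hZ']
    refine Subset.trans ?_ (subset_union_left (s₂ := J'))
    refine Subset.trans ?_ (subset_Cl q _)
    intro x hx
    simp only [mem_union]
    tauto
  have key : ∀ κ : V → Bool, Valid vs ng κ B → (∀ i ∈ Z, κ i = ρ i) →
      2 * b' ≤ ∑ i, a' i * pt Z' κ i := by
    intro κ hκ hκZ
    have hFm : Fg vs ng q q₀ T₀ T₁ ρ₀ w' r Λ Z' κ := by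
      refine ⟨W ∪ E, J', hZ', hJ'c, ?_, hspa, hspb,
        fun c hc => hκ c (hc.trans hZ'B), fun i hi => ?_, hevn⟩
      · have e1 := card_union_le W E
        omega
      · rw [hκZ i (h0Z hi)]
        exact hρ₀ i hi
    have h1 := hH Z' κ hFm
    have h2 : ∀ i, a i * pt Z' κ i = 2 * ((c : ℤ) * (a' i * if κ i then 1 else 0)) := by
      intro i
      rw [ha i]
      by_cases hi : a' i = 0
      · simp [hi]
      · have : i ∈ Z' := hWZ' (by rw [hW]; exact mem_filter.mpr ⟨mem_univ _, hi⟩)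
        simp only [pt, if_pos this]
        cases κ i <;> simp
        ring
    have h2' : ∀ i, a' i * pt Z' κ i = 2 * (a' i * if κ i then 1 else 0) := by
      intro i
      by_cases hi : a' i = 0
      · simp [hi]
      · have : i ∈ Z' := hWZ' (by rw [hW]; exact mem_filter.mpr ⟨mem_univ _, hi⟩)
        simp only [pt, if_pos this]
        cases κ i <;> simp
        ring
    rw [sum_congr rfl (fun i _ => h2 i), ← mul_sum, ← mul_sum] at h1
    rw [sum_congr rfl (fun i _ => h2' i), ← mul_sum]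
    obtain ⟨s, hs⟩ : ∃ s : ℤ, s = ∑ i, (a' i * if κ i then 1 else 0 : ℤ) := ⟨_, rfl⟩
    rw [← hs] at h1 ⊢
    have h4 : b ≤ c * s := by omega
    have h5 : b' ≤ s := by
      rw [hb, Int.ceil_le, div_le_iff₀ (by exact_mod_cast hc)]
      have : (b : ℚ) ≤ ((c * s : ℤ) : ℚ) := by exact_mod_cast h4
      rw [Int.cast_mul] at this
      push_cast at this
      linarith
    omega
  have k1 := key σ hv1 hσZ
  have k2 := key (MP86d903.flip Z σ) hv2 (by
    intro i hi
    unfold MP86d903.flip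
    rw [if_pos hi]
    exact hσZ i hi)
  have hsum : ∑ i, a' i * pt Z' σ i + ∑ i, a' i * pt Z' (MP86d903.flip Z σ) i =
      2 * ∑ i, a' i * pt Z ρ i := by
    rw [← sum_add_distrib, mul_sum]
    refine sum_congr rfl (fun i _ => ?_)
    by_cases hi : a' i = 0
    · simp [hi]
    · have hiZ' : i ∈ Z' := hWZ' (by rw [hW]; exact mem_filter.mpr ⟨mem_univ _, hi⟩)
      have h1 : pt Z' σ i + pt Z' (MP86d903.flip Z σ) i = 2 * pt Z ρ i := by
        unfold pt MP86d903.flip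
        by_cases hiZ : i ∈ Z
        · rw [if_pos hiZ', if_pos hiZ', if_pos hiZ, if_pos hiZ, hσZ i hiZ]
          ring
        · rw [if_pos hiZ', if_pos hiZ', if_neg hiZ, if_neg hiZ]
          cases σ i <;> simp
      rw [← mul_add, h1]
      ring
  omega

end Rules

variable {n m : ℕ}

/-- the span of the coefficient vectors modulo two of all heavy critical lines -/
noncomputable def SpA {F : Fin m → Clause n} (π : Refutation F) (ε δ η : ℝ) :
    Submodule (ZMod 2) (Fin n → ZMod 2) :=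
  Submodule.span (ZMod 2) ((fun i => vv (π.line i).coef) ''
    {i | π.IsCritical ε η i ∧ ¬ IsLight ε δ (π.line i)})

theorem hg_light {vs ng : Fin m → Finset (Fin n)} {q q₀ h w r : ℕ} {T₀ T₁ : Finset (Fin n)}
    {ρ₀ : Fin n → Bool} {Λ : Submodule (ZMod 2) (Fin n → ZMod 2)} {δ : ℝ} (hT : T₀ ⊆ T₁)
    (hδ : 0 < δ * n) (hh : δ * n ≤ h) (L : Ineq n)
    (Z : Finset (Fin n)) (hZ : ∀ v ∈ Z, (falsity L : ℝ) ≤ δ * n * |(L.coef v : ℝ)|)
    (hhit : h ≤ hits Z (fun v => decide (0 < L.coef v)) (Cl vs q T₀) ρ₀) :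
    Hg vs ng q q₀ T₀ T₁ ρ₀ w r Λ L.coef L.rhs := by
  classical
  obtain ⟨H, hH⟩ : ∃ H, H = (Z ∩ Cl vs q T₀).filter
    (fun v => ρ₀ v = decide (0 < L.coef v)) := ⟨_, rfl⟩
  have hcard : h ≤ H.card := by
    rw [hH]
    exact hhit
  rintro Z' ρ ⟨T, J, hZ', -, -, -, -, -, hρ, -⟩
  have h0 : Cl vs q T₀ ⊆ Z' := by
    rw [hZ']
    exact (Cl_mono (hT.trans subset_union_left)).trans subset_union_left
  refine mTRI_killed h0 hρ L.coef L.rhs H ?_ ?_ ?_
  · intro v hv
    rw [hH] at hv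
    exact (mem_inter.mp (mem_filter.mp hv).1).2
  · intro v hv
    rw [hH] at hv
    exact (mem_filter.mp hv).2
  · rw [← falsity_eq]
    by_cases h0 : falsity L ≤ 0
    · exact h0.trans (Finset.sum_nonneg (fun v _ => abs_nonneg _))
    · rw [not_le] at h0
      have h0' : (0 : ℝ) < falsity L := by exact_mod_cast h0
      have h1 : (H.card : ℝ) * (falsity L : ℝ) ≤ δ * n * ∑ v ∈ H, |(L.coef v : ℝ)| := by
        rw [Finset.mul_sum, ← nsmul_eq_mul]
        refine Finset.card_nsmul_le_sum _ _ _ (fun v hv => ?_)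
        rw [hH] at hv
        exact hZ v (mem_inter.mp (mem_filter.mp hv).1).1
      have h2 : δ * n ≤ (H.card : ℝ) := hh.trans (by exact_mod_cast hcard)
      have h3 : δ * n * (falsity L : ℝ) ≤ δ * n * ∑ v ∈ H, |(L.coef v : ℝ)| :=
        (mul_le_mul_of_nonneg_right h2 h0'.le).trans h1
      have h4 := le_of_mul_le_mul_left h3 hδ
      have h5 : ((falsity L : ℤ) : ℝ) ≤ ((∑ v ∈ H, |L.coef v| : ℤ) : ℝ) := by
        push_cast
        exact h4
      exact_mod_cast h5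

theorem det3 (hFAR : StFAR) (hBAL : StBAL) (F : Fin m → Clause n) {R M w h t₀ k r D : ℕ}
    {ε δ η : ℝ} (hE : Exp (vsF F) R) (hR : 35 * M ≤ R)
    (hM : t₀ + k + 2 * w + 4 * ((3 * D + 1) ^ 7 * r) + 4 * r ≤ M)
    (hK : (37 * M : ℝ) ≤ η * n) (hw1 : ε * n ≤ w) (hw2 : ∀ k : ℕ, ε * n ≤ k → w ≤ k)
    (hδ : 0 < δ * n) (hh : δ * n ≤ h) (h74 : 74 * t₀ ≤ w) (hwn : w ≤ n) (hn : 0 < n)
    (hM1 : 1 ≤ M) (hk : ∀ j : ℕ, (D + 1) * j ≤ 3 * m → j ≤ k)
    (hsmall : (2 : ℝ) ^ (δ * n) * (1 - w / (8 * n)) ^ t₀ * 2 ^ h < 2)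
    (π : Refutation F) :
    (2 : ℝ) ^ (δ * n) < {i | π.IsCritical ε η i ∧ IsLight ε δ (π.line i)}.ncard ∨
      r + 1 ≤ Module.finrank (ZMod 2) (SpA π ε δ η) := by
  classical
  rw [or_iff_not_imp_left]
  intro hlight
  rw [not_lt] at hlight
  by_contra hdim
  have hΛ : Module.finrank (ZMod 2) (SpA π ε δ η) ≤ r := by omega
  obtain ⟨Λ, hΛd⟩ : ∃ Λ, Λ = SpA π ε δ η := ⟨_, rfl⟩
  rw [← hΛd] at hΛ
  obtain ⟨q₀, hq₀⟩ : ∃ q₀, q₀ = 22 * M := ⟨_, rfl⟩
  obtain ⟨q, hq⟩ : ∃ q, q = 23 * M := ⟨_, rfl⟩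
  have hrM : r ≤ M := by omega
  have hC : ∀ T : Finset (Fin n), T.card ≤ M → (Cl (vsF F) q T).card ≤ 37 * T.card := by
    intro T hT
    exact card_Cl_le hE (fun c => (vsF_card F c).le) T (by omega)
  have hI : ∀ T : Finset (Fin n), T.card ≤ M →
      (inside (vsF F) (Cl (vsF F) q T)).card ≤ q₀ := by
    intro T hT
    have h1 := hC T hT
    have h2 := card_inside_le hE (Cl (vsF F) q T) (by omega)
    omega
  have hI' : ∀ T : Finset (Fin n), T.card ≤ M →
      (inside (vsF F) (Cl (vsF F) q T)).card ≤ q := by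
    intro T hT
    have := hI T hT
    omega
  set 𝓔 : Finset (Fin π.size) :=
    univ.filter (fun i => π.IsCritical ε η i ∧ IsLight ε δ (π.line i)) with h𝓔
  have h𝓔card : (𝓔.card : ℝ) ≤ (2 : ℝ) ^ (δ * n) := by
    rw [← Set.ncard_coe_finset]
    refine le_trans (le_of_eq ?_) hlight
    congr 2
    ext i
    simp [h𝓔]
  set Z : Fin π.size → Finset (Fin n) := fun i =>
    univ.filter (fun v => (falsity (π.line i) : ℝ) ≤ δ * n * |((π.line i).coef v : ℝ)|) with hZ
  have hZcard : ∀ i ∈ 𝓔, w ≤ (Z i).card := by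
    intro i hi
    apply hw2
    have h1 := (mem_filter.mp hi).2.2
    unfold IsLight at h1
    rw [← Set.ncard_coe_finset]
    refine h1.trans (le_of_eq ?_)
    congr 2
    ext v
    simp [hZ]
  have hw8 : 0 ≤ 1 - (w : ℝ) / (8 * n) := by
    have h1 : (w : ℝ) ≤ n := by exact_mod_cast hwn
    have h2 : (0 : ℝ) < n := by exact_mod_cast hn
    rw [sub_nonneg, div_le_one (by positivity)]
    linarith
  obtain ⟨T₀, ρ₀, hT₀, hρ₀, hhits⟩ := exists_root (ng := ngF F) (κ := Fin π.size)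
    (fun c => vsF_card F c) hI' hC 𝓔 Z
    (fun i v => decide (0 < (π.line i).coef v)) (w := w) (h := h) (t := t₀)
    hZcard (by rw [Fintype.card_fin]; exact hwn) (by rw [Fintype.card_fin]; exact hn)
    (by omega) h74 (by
      rw [Fintype.card_fin]
      refine lt_of_le_of_lt ?_ hsmall
      refine mul_le_mul_of_nonneg_right ?_ (by positivity)
      exact mul_le_mul_of_nonneg_right h𝓔card (pow_nonneg hw8 _))
  -- the variables of high degree
  set H₁ : Finset (Fin n) :=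
    univ.filter (fun x => D < (univ.filter (fun c => x ∈ vsF F c)).card) with hH₁
  have hH₁card : H₁.card ≤ k := by
    apply hk
    have h1 := mDEG (V := Fin n) (vs := vsF F) (fun c => vsF_card F c) D
    rw [Fintype.card_fin] at h1
    exact h1
  set T₁ : Finset (Fin n) := T₀ ∪ H₁ with hT₁
  have hTT : T₀ ⊆ T₁ := subset_union_left
  have hT₁card : T₁.card ≤ t₀ + k := by
    have h1 := card_union_le T₀ H₁
    rw [← hT₁] at h1
    omega
  have hD : ∀ x, x ∉ T₁ → (univ.filter (fun c => x ∈ vsF F c)).card ≤ D := by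
    intro x hx
    by_contra hcon
    rw [not_le] at hcon
    exact hx (mem_union_right _ (mem_filter.mpr ⟨mem_univ _, hcon⟩))
  obtain ⟨e, he⟩ : ∃ e, e = 2 * (3 * D + 1) ^ 7 * r := ⟨_, rfl⟩
  have he2 : 4 * ((3 * D + 1) ^ 7 * r) = 2 * e := by
    rw [he]
    ring
  have hM' : T₁.card + (w + e) + w + e + 4 * r ≤ M := by omega
  have h3 : ∀ c, (vsF F c).card = 3 := fun c => vsF_card F c
  have hq2 : 2 ≤ q := by omega
  have hNXT : ∀ G : Finset (Fin n), T₁ ⊆ G → ∃ E J : Finset (Fin n), E.card ≤ e ∧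
      J.card ≤ 2 * r ∧ SPa (vsF F) q₀ (Cl (vsF F) q (G ∪ E) ∪ J) ∧
      SPb (vsF F) (Cl (vsF F) q (G ∪ E) ∪ J) ∧
      ∀ b ∈ Λ, ∑ i ∈ (Cl (vsF F) q (G ∪ E) ∪ J)ᶜ, b i = 0 := by
    intro G hG
    rw [he]
    exact lin hFAR hBAL h3 hq2 (by omega) hD hΛ G hG
  -- the main claim
  have main : ∀ (N : ℕ) (i : Fin π.size), (i : ℕ) = N →
      Hg (vsF F) (ngF F) q q₀ T₀ T₁ ρ₀ (w + e) r Λ (π.line i).coef (π.line i).rhs := by
    intro N
    induction N using Nat.strong_induction_on with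
    | _ N ih =>
    intro i hiN
    have ih' : ∀ j : Fin π.size, j < i →
        Hg (vsF F) (ngF F) q q₀ T₀ T₁ ρ₀ (w + e) r Λ (π.line j).coef (π.line j).rhs := by
      intro j hj
      exact ih j (by rw [← hiN]; exact hj) j rfl
    have hjust := π.justified i
    rcases hr : π.rule i with c | v | v | ⟨j, l, α, β⟩ | ⟨j, c⟩
    · rw [hr] at hjust
      have h1 : π.line i = clauseIneq (F c) := hjust
      rw [h1]
      rintro Z ρ ⟨T, J, -, -, -, -, hSb, hval, -, -⟩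
      exact mTRI_clause hSb hval (ngF_subset F) c _ _ (fun v => rfl) rfl
    · rw [hr] at hjust
      have h1 : π.line i = ⟨Pi.single v 1, 0⟩ := hjust
      rw [h1]
      exact hg_lower v
    · rw [hr] at hjust
      have h1 : π.line i = ⟨Pi.single v (-1), -1⟩ := hjust
      rw [h1]
      exact hg_upper v
    · rw [hr] at hjust
      obtain ⟨hj, hl, h1⟩ : j < i ∧ l < i ∧ π.line i = ⟨fun v =>
        α * (π.line j).coef v + β * (π.line l).coef v,
        α * (π.line j).rhs + β * (π.line l).rhs⟩ := hjust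
      rw [h1]
      exact hg_comb _ _ _ _ _ _ α β (fun v => rfl) rfl (ih' j hj) (ih' l hl)
    · rw [hr] at hjust
      obtain ⟨hj, hc, hcoef, hrhs⟩ : j < i ∧ 1 ≤ c ∧
        (∀ v, (π.line j).coef v = c * (π.line i).coef v) ∧
        (π.line i).rhs = ⌈((π.line j).rhs : ℚ) / c⌉ := hjust
      have h1 := ih' j hj
      by_cases hcrit : π.IsCritical ε η i
      · by_cases hlt : IsLight ε δ (π.line i)
        · have hi𝓔 : i ∈ 𝓔 := mem_filter.mpr ⟨mem_univ _, hcrit, hlt⟩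
          exact hg_light hTT hδ hh (π.line i) (Z i)
            (fun v hv => (mem_filter.mp hv).2) (hhits i hi𝓔)
        · -- a heavy critical step
          have hmem : vv (π.line i).coef ∈ Λ := by
            rw [hΛd]
            apply Submodule.subset_span
            exact ⟨i, ⟨hcrit, hlt⟩, rfl⟩
          exact hg_even hc hcoef hrhs hmem h1
      · by_cases hwide : ε * n ≤ ({v | (π.line i).coef v ≠ 0}.ncard : ℝ)
        · intro A ρ hF
          by_contra hcon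
          rw [not_le] at hcon
          apply hcrit
          refine ⟨hwide, j, c, hr, pt A ρ, ?_, ?_, h1 A ρ hF, hcon⟩
          · intro v
            unfold pt
            split_ifs <;> simp
          · obtain ⟨T, J, hA, hJ, hT, -⟩ := hF
            have h5 : (T₁ ∪ T ∪ J).card ≤ M := by
              have e1 := card_union_le (T₁ ∪ T) J
              have e2 := card_union_le T₁ T
              omega
            have h6 : A ⊆ Cl (vsF F) q (T₁ ∪ T ∪ J) := by
              rw [hA]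
              refine union_subset (Cl_mono subset_union_left) ?_
              exact subset_union_right.trans (subset_Cl q _)
            have h7 : {v | pt A ρ v ≠ 1}.ncard ≤ 37 * M := by
              have h4 : {v | pt A ρ v ≠ 1} ⊆ (A : Set (Fin n)) := by
                intro v hv
                by_contra hvA
                exact hv (by
                  unfold pt
                  exact if_neg (fun hva => hvA hva))
              refine (Set.ncard_le_ncard h4 (Set.toFinite _)).trans ?_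
              rw [Set.ncard_coe_finset]
              refine (card_le_card h6).trans ((hC _ h5).trans ?_)
              omega
            refine le_trans ?_ hK
            exact_mod_cast h7
        · rw [not_le] at hwide
          refine hg_nar (M := M) hTT hI hM' le_rfl hNXT hc hcoef hrhs ?_ h1
          have h4 : ({v | (π.line i).coef v ≠ 0}.ncard : ℝ) ≤ w := hwide.le.trans hw1
          have h5 : {v | (π.line i).coef v ≠ 0}.ncard ≤ w := by exact_mod_cast h4
          rw [← Set.ncard_coe_finset]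
          refine le_trans (le_of_eq ?_) h5
          congr 1
          ext v
          simp
  obtain ⟨i, hi⟩ := π.falsum
  have h1 := main i i rfl
  -- a state
  obtain ⟨E, J, hEc, hJc, hspa, hspb, hevn⟩ := hNXT T₁ (Subset.refl _)
  have hBc : (T₁ ∪ E ∪ J).card ≤ M := by
    have e1 := card_union_le (T₁ ∪ E) J
    have e2 := card_union_le T₁ E
    omega
  have hsub : Cl (vsF F) q (T₁ ∪ E) ∪ J ⊆ Cl (vsF F) q (T₁ ∪ E ∪ J) :=
    union_subset (Cl_mono subset_union_left) (subset_union_right.trans (subset_Cl q _))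
  obtain ⟨σ, hσ, hσ1, -⟩ := exists_ext (ng := ngF F) (A := Cl (vsF F) q T₀)
    (B := Cl (vsF F) q (T₁ ∪ E ∪ J)) (ρ := ρ₀) (fun c => (vsF_card F c).le) (closed_Cl q T₀)
    (hI' _ hBc) hρ₀
  have h2 := h1 (Cl (vsF F) q (T₁ ∪ E) ∪ J) σ ⟨E, J, rfl, hJc, by omega, hspa, hspb,
    fun c hc => hσ1 c (hc.trans hsub), hσ, hevn⟩
  rw [hi] at h2
  simp at h2

end Pool.Agent.Helper12.GD
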