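import Mathlib

/-!
# Project GD: conflict free linearly independent systems (a Haxell type lemma)
-/

set_option autoImplicit false

open Finset

namespace Pool.Agent.Helper12.GD

section Kernels

set_option linter.unusedSectionVars false

variable {K X W : Type} [Field K] [DecidableEq X] [AddCommGroup W] [Module K W]

/-- the vectors of `C` on which all `φ x`, `x ∈ T`, vanish -/
def Kr (C : Submodule K W) (φ : X → W →ₗ[K] K) (T : Finset X) : Submodule K W where
  carrier := {b | b ∈ C ∧ ∀ x ∈ T, φ x b = 0}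
  zero_mem' := ⟨C.zero_mem, fun x _ => map_zero _⟩
  add_mem' := by
    intro a b ha hb
    exact ⟨C.add_mem ha.1 hb.1, fun x hx => by rw [map_add, ha.2 x hx, hb.2 x hx, add_zero]⟩
  smul_mem' := by
    intro c a ha
    exact ⟨C.smul_mem c ha.1, fun x hx => by rw [map_smul, ha.2 x hx, smul_zero]⟩

/-- `φ x` vanishes on the common kernel of `T` -/
def Dp (C : Submodule K W) (φ : X → W →ₗ[K] K) (T : Finset X) (x : X) : Prop :=
  ∀ b ∈ Kr C φ T, φ x b = 0

/-- independence on `C` -/
def In (C : Submodule K W) (φ : X → W →ₗ[K] K) (R : Finset X) : Prop :=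
  ∀ y ∈ R, ¬ Dp C φ (R.erase y) y

variable {C : Submodule K W} {φ : X → W →ₗ[K] K}

theorem Kr_anti {T T' : Finset X} (h : T ⊆ T') : Kr C φ T' ≤ Kr C φ T :=
  fun _ hb => ⟨hb.1, fun x hx => hb.2 x (h hx)⟩

theorem Dp_mono {T T' : Finset X} {x : X} (h : T ⊆ T') (hx : Dp C φ T x) : Dp C φ T' x :=
  fun b hb => hx b (Kr_anti h hb)

theorem Dp_self {T : Finset X} {x : X} (h : x ∈ T) : Dp C φ T x :=
  fun _ hb => hb.2 x h

theorem Dp_exch {T : Finset X} {x y : X} (h1 : Dp C φ (insert y T) x) (h2 : ¬ Dp C φ T x) :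
    Dp C φ (insert x T) y := by
  intro b hb
  unfold Dp at h2
  push Not at h2
  obtain ⟨b₀, hb₀, hx₀⟩ := h2
  by_contra hy
  have hy0 : φ y b ≠ 0 := hy
  obtain ⟨c, hc⟩ : ∃ c : K, c = φ y b₀ / φ y b := ⟨_, rfl⟩
  have h3 : b₀ - c • b ∈ Kr C φ (insert y T) := by
    refine ⟨C.sub_mem hb₀.1 (C.smul_mem c hb.1), ?_⟩
    intro z hz
    rw [mem_insert] at hz
    rcases hz with rfl | hz
    · rw [map_sub, map_smul, smul_eq_mul, hc, div_mul_cancel₀ _ hy0, sub_self]
    · rw [map_sub, map_smul, hb₀.2 z hz, hb.2 z (mem_insert_of_mem hz), smul_zero, sub_zero]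
  have h4 := h1 _ h3
  rw [map_sub, map_smul, hb.2 x (mem_insert_self _ _), smul_zero, sub_zero] at h4
  exact hx₀ h4

theorem In_sub {T R : Finset X} (h : T ⊆ R) (hR : In C φ R) : In C φ T := by
  intro y hy hD
  exact hR y (h hy) (Dp_mono (erase_subset_erase y h) hD)

theorem In_insert {T : Finset X} {x : X} (hT : In C φ T) (hx : ¬ Dp C φ T x) :
    In C φ (insert x T) := by
  have hxT : x ∉ T := fun h => hx (Dp_self h)
  intro y hy hD
  rw [mem_insert] at hy
  rcases hy with rfl | hy
  · rw [erase_insert hxT] at hD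
    exact hx hD
  · have hne : x ≠ y := by
      rintro rfl
      exact hxT hy
    rw [erase_insert_of_ne hne] at hD
    have h1 := Dp_exch hD (hT y hy)
    rw [insert_erase hy] at h1
    exact hx h1

theorem Dp_step {x : X} (D : Finset X) : ∀ T : Finset X, D ⊆ T → Dp C φ T x →
    ¬ Dp C φ (T \ D) x → ∃ y ∈ D, ∃ T' ⊆ T, y ∈ T' ∧ Dp C φ T' x ∧
      ¬ Dp C φ (T'.erase y) x := by
  induction D using Finset.induction_on with
  | empty =>
    intro T _ h1 h2
    rw [sdiff_empty] at h2
    exact absurd h1 h2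
  | insert a D ha ih =>
    intro T hT h1 h2
    by_cases h3 : Dp C φ (T \ D) x
    · refine ⟨a, mem_insert_self _ _, T \ D, sdiff_subset, ?_, h3, ?_⟩
      · exact mem_sdiff.2 ⟨hT (mem_insert_self _ _), ha⟩
      · have : (T \ D).erase a = T \ insert a D := by
          ext z
          simp only [mem_erase, mem_sdiff, mem_insert, not_or]
          tauto
        rw [this]
        exact h2
    · obtain ⟨y, hy, T', hT', h4⟩ := ih T ((subset_insert _ _).trans hT) h1 h3
      exact ⟨y, mem_insert_of_mem hy, T', hT', h4⟩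

variable [FiniteDimensional K W]

theorem fr_step (T : Finset X) (x : X) :
    Module.finrank K (Kr C φ T) ≤ Module.finrank K (Kr C φ (insert x T)) + 1 := by
  obtain ⟨f, hf⟩ : ∃ f : Kr C φ T →ₗ[K] K, f = (φ x).domRestrict (Kr C φ T) := ⟨_, rfl⟩
  have h1 := LinearMap.finrank_range_add_finrank_ker f
  have h2 : Module.finrank K (LinearMap.range f) ≤ 1 := by
    refine (Submodule.finrank_le _).trans ?_
    rw [Module.finrank_self]
  have h3 : Module.finrank K (LinearMap.ker f) ≤ Module.finrank K (Kr C φ (insert x T)) := by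
    rw [← Submodule.finrank_map_subtype_eq (Kr C φ T) (LinearMap.ker f)]
    refine Submodule.finrank_mono ?_
    intro b hb
    rw [Submodule.mem_map] at hb
    obtain ⟨y, hy, rfl⟩ := hb
    rw [LinearMap.mem_ker, hf, LinearMap.domRestrict_apply] at hy
    refine ⟨y.2.1, fun z hz => ?_⟩
    rw [mem_insert] at hz
    rcases hz with rfl | hz
    · exact hy
    · exact y.2.2 z hz
  omega

theorem Kr_empty : Kr C φ ∅ = C := by
  ext b
  constructor
  · exact fun h => h.1
  · exact fun h => ⟨h, fun x hx => absurd hx (notMem_empty x)⟩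

theorem fr_low (T : Finset X) :
    Module.finrank K C ≤ Module.finrank K (Kr C φ T) + T.card := by
  induction T using Finset.induction_on with
  | empty => rw [Kr_empty]; simp
  | insert a T ha ih =>
    rw [card_insert_of_notMem ha]
    have := fr_step (C := C) (φ := φ) T a
    omega

theorem fr_up (R : Finset X) (hR : In C φ R) :
    Module.finrank K (Kr C φ R) + R.card ≤ Module.finrank K C := by
  induction R using Finset.induction_on with
  | empty => rw [Kr_empty]; simp
  | insert a T ha ih =>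
    rw [card_insert_of_notMem ha]
    have h1 := ih (In_sub (subset_insert _ _) hR)
    have h2 : ¬ Dp C φ T a := by
      have := hR a (mem_insert_self _ _)
      rwa [erase_insert ha] at this
    have h3 : Kr C φ (insert a T) < Kr C φ T := by
      refine lt_of_le_of_ne (Kr_anti (subset_insert _ _)) ?_
      intro h
      apply h2
      intro b hb
      rw [← h] at hb
      exact hb.2 a (mem_insert_self _ _)
    have h4 := Submodule.finrank_lt_finrank_of_lt h3
    omega

end Kernels

section Lists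

variable {K X W : Type} [Field K] [DecidableEq X] [AddCommGroup W] [Module K W]
  (C : Submodule K W) (φ : X → W →ₗ[K] K) (XS : Finset X) (N : X → Finset X)

/-- conflict free and independent -/
structure Gd (R : Finset X) : Prop where
  sub : R ⊆ XS
  cf : ∀ x ∈ R, ∀ y ∈ R, x ≠ y → y ∉ N x
  ind : In C φ R

/-- the elements of `R` in conflict with the list -/
def SS (R : Finset X) (L : List X) : Finset X := R.filter (fun z => ∃ y ∈ L, z ∈ N y)

/-- candidates -/
structure Cd (R : Finset X) (L : List X) (x : X) : Prop where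
  mem : x ∈ XS
  l : ∀ y ∈ L, x ∉ N y
  s : ∀ z ∈ SS N R L, x ∉ N z
  dep : ¬ Dp C φ (R \ SS N R L) x

/-- admissible lists -/
def Am (R : Finset X) : List X → Prop
  | [] => True
  | x :: L => Am R L ∧ Cd C φ XS N R L x ∧ ∃ z ∈ R, z ∈ N x

variable {C φ XS N}

theorem SS_sub {R : Finset X} {L L' : List X} (h : ∀ y ∈ L, y ∈ L') : SS N R L ⊆ SS N R L' := by
  intro z hz
  obtain ⟨h1, y, hy, h2⟩ := mem_filter.1 hz
  exact mem_filter.2 ⟨h1, y, h y hy, h2⟩

theorem Am_tail {R : Finset X} {L₂ L₁ : List X} (h : Am C φ XS N R (L₂ ++ L₁)) :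
    Am C φ XS N R L₁ := by
  induction L₂ with
  | nil => exact h
  | cons x L ih => exact ih h.1

theorem Am_mem {R : Finset X} {L : List X} (h : Am C φ XS N R L) : ∀ y ∈ L, y ∈ XS := by
  induction L with
  | nil =>
    intro y hy
    simp at hy
  | cons x L ih =>
    intro y hy
    rw [List.mem_cons] at hy
    rcases hy with rfl | hy
    · exact h.2.1.mem
    · exact ih h.1 y hy

theorem Am_len (hsym : ∀ x ∈ XS, ∀ y ∈ XS, y ∈ N x → x ∈ N y) {R : Finset X} (hR : R ⊆ XS)
    {L : List X} (h : Am C φ XS N R L) : L.length ≤ (SS N R L).card := by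
  induction L with
  | nil => simp
  | cons x L ih =>
    obtain ⟨h1, h2, z, hz, hzx⟩ := h
    have h3 := ih h1
    have h4 : z ∉ SS N R L := by
      intro h5
      exact h2.s z h5 (hsym x h2.mem z (hR hz) hzx)
    have h5 : insert z (SS N R L) ⊆ SS N R (x :: L) := by
      intro y hy
      rw [mem_insert] at hy
      rcases hy with rfl | hy
      · exact mem_filter.2 ⟨hz, x, List.mem_cons_self, hzx⟩
      · exact SS_sub (fun y hy => List.mem_cons_of_mem _ hy) hy
    have h6 := card_le_card h5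
    rw [card_insert_of_notMem h4] at h6
    rw [List.length_cons]
    omega

/-- transfer of admissibility -/
theorem Am_transfer {R R' : Finset X} {L₁ : List X}
    (h1 : ∀ w ∈ L₁, ∀ z ∈ N w, z ∈ R' ↔ z ∈ R)
    (h2 : ∀ L : List X, (∀ w ∈ L, w ∈ L₁) → ∀ v, Dp C φ (R' \ SS N R' L) v →
      Dp C φ (R \ SS N R L) v) :
    ∀ L : List X, (∀ w ∈ L, w ∈ L₁) →
      (Am C φ XS N R L → Am C φ XS N R' L) ∧ ∀ v, Cd C φ XS N R L v → Cd C φ XS N R' L v := by
  have hS : ∀ L : List X, (∀ w ∈ L, w ∈ L₁) → SS N R' L = SS N R L := by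
    intro L hL
    ext z
    unfold SS
    rw [mem_filter, mem_filter]
    constructor
    · rintro ⟨a, y, hy, b⟩
      exact ⟨(h1 y (hL y hy) z b).1 a, y, hy, b⟩
    · rintro ⟨a, y, hy, b⟩
      exact ⟨(h1 y (hL y hy) z b).2 a, y, hy, b⟩
  have hC : ∀ L : List X, (∀ w ∈ L, w ∈ L₁) → ∀ v, Cd C φ XS N R L v →
      Cd C φ XS N R' L v := by
    intro L hL v hv
    refine ⟨hv.mem, hv.l, ?_, ?_⟩
    · rw [hS L hL]
      exact hv.s
    · intro hD
      exact hv.dep (h2 L hL v hD)
  intro L
  induction L with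
  | nil => exact fun hL => ⟨fun _ => trivial, hC [] hL⟩
  | cons x L ih =>
    intro hL
    refine ⟨?_, hC _ hL⟩
    rintro ⟨a, b, z, hz, hzx⟩
    have hL' : ∀ w ∈ L, w ∈ L₁ := fun w hw => hL w (List.mem_cons_of_mem _ hw)
    exact ⟨(ih hL').1 a, hC L hL' x b, z, (h1 x (hL x List.mem_cons_self) z hzx).2 hz, hzx⟩

/-- decomposition of the list -/
theorem dec {R : Finset X} {x : X} (h0 : Dp C φ R x) : ∀ L : List X,
    ¬ Dp C φ (R \ SS N R L) x → ∃ (L₂ : List X) (y : X) (L₁ : List X), L = L₂ ++ y :: L₁ ∧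
      Dp C φ (R \ SS N R L₁) x ∧ ¬ Dp C φ (R \ SS N R (y :: L₁)) x := by
  intro L
  induction L with
  | nil =>
    intro h
    exfalso
    apply h
    have : SS N R [] = ∅ := by
      unfold SS
      rw [filter_eq_empty_iff]
      rintro z _ ⟨y, hy, -⟩
      simp at hy
    rw [this, sdiff_empty]
    exact h0
  | cons y L ih =>
    intro h
    by_cases h1 : Dp C φ (R \ SS N R L) x
    · exact ⟨[], y, L, rfl, h1, h⟩
    · obtain ⟨L₂, z, L₁, h2, h3⟩ := ih h1
      exact ⟨y :: L₂, z, L₁, by rw [h2]; rfl, h3⟩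

/-- the outcome: a larger good set, or progress at an element of the list -/
def Ou (C : Submodule K W) (φ : X → W →ₗ[K] K) (XS : Finset X) (N : X → Finset X) (r : ℕ)
    (R : Finset X) (L : List X) : Prop :=
  (∃ R', Gd C φ XS N R' ∧ R'.card = r + 1) ∨
    ∃ (L₂ : List X) (y : X) (L₁ : List X) (R' : Finset X), L = L₂ ++ y :: L₁ ∧
      Gd C φ XS N R' ∧ R'.card = r ∧ (∀ w ∈ L₁, ∀ z ∈ N w, z ∈ R' ↔ z ∈ R) ∧
      Am C φ XS N R' L₁ ∧ Cd C φ XS N R' L₁ y ∧ N y ∩ R' ⊂ N y ∩ R

/-- a candidate without conflicts -/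
theorem free (href : ∀ x ∈ XS, x ∈ N x) (hsym : ∀ x ∈ XS, ∀ y ∈ XS, y ∈ N x → x ∈ N y)
    {r : ℕ} {R : Finset X} {L : List X} {x : X} (hR : Gd C φ XS N R) (hr : R.card = r)
    (hA : Am C φ XS N R L) (hC : Cd C φ XS N R L x) (h0 : N x ∩ R = ∅) :
    Ou C φ XS N r R L := by
  have hno : ∀ z ∈ R, z ∉ N x := by
    intro z hz h
    have : z ∈ N x ∩ R := mem_inter.2 ⟨h, hz⟩
    rw [h0] at this
    exact notMem_empty z this
  have hno' : ∀ z ∈ R, x ∉ N z := fun z hz h => hno z hz (hsym z (hR.sub hz) x hC.mem h)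
  have hxR : x ∉ R := fun h => hno x h (href x hC.mem)
  have hcf : ∀ T ⊆ R, ∀ a ∈ insert x T, ∀ b ∈ insert x T, a ≠ b → b ∉ N a := by
    intro T hT a ha b hb hab
    rw [mem_insert] at ha hb
    rcases ha with rfl | ha
    · rcases hb with rfl | hb
      · exact absurd rfl hab
      · exact hno b (hT hb)
    · rcases hb with rfl | hb
      · exact hno' a (hT ha)
      · exact hR.cf a (hT ha) b (hT hb) hab
  by_cases hD : Dp C φ R x
  · right
    obtain ⟨L₂, y, L₁, hL, h1, h2⟩ := dec hD L hC.dep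
    have hyL : y ∈ L := by
      rw [hL]
      simp
    have hL₁L : ∀ w ∈ L₁, w ∈ L := by
      intro w hw
      rw [hL]
      simp [hw]
    obtain ⟨D, hDd⟩ : ∃ D, D = SS N R (y :: L₁) \ SS N R L₁ := ⟨_, rfl⟩
    have hDT : D ⊆ R \ SS N R L₁ := by
      rw [hDd]
      intro z hz
      rw [mem_sdiff] at hz ⊢
      exact ⟨(mem_filter.1 hz.1).1, hz.2⟩
    have h3 : ¬ Dp C φ ((R \ SS N R L₁) \ D) x := by
      intro h
      apply h2
      refine Dp_mono ?_ h
      intro z hz
      rw [hDd] at hz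
      simp only [mem_sdiff, not_and, not_not] at hz ⊢
      exact ⟨hz.1.1, fun h => hz.1.2 (hz.2 h)⟩
    obtain ⟨y₀, hy₀, T', hT', hyT', h4, h5⟩ := Dp_step D _ hDT h1 h3
    have hy₀R : y₀ ∈ R := (mem_sdiff.1 (hDT hy₀)).1
    have hy₀S : y₀ ∉ SS N R L₁ := (mem_sdiff.1 (hDT hy₀)).2
    have hy₀N : y₀ ∈ N y := by
      rw [hDd, mem_sdiff] at hy₀
      obtain ⟨h6, h7⟩ := hy₀
      obtain ⟨-, w, hw, h8⟩ := mem_filter.1 h6
      rw [List.mem_cons] at hw
      rcases hw with rfl | hw
      · exact h8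
      · exact absurd (mem_filter.2 ⟨hy₀R, w, hw, h8⟩) h7
    have hne : x ≠ y₀ := by
      rintro rfl
      exact hxR hy₀R
    have h6 : ¬ Dp C φ (R.erase y₀) x := by
      intro h
      have h7 : Dp C φ (insert x (T'.erase y₀)) y₀ := by
        refine Dp_exch ?_ h5
        rwa [insert_erase hyT']
      apply hR.ind y₀ hy₀R
      intro b hb
      apply h7 b
      refine ⟨hb.1, fun z hz => ?_⟩
      rw [mem_insert] at hz
      rcases hz with rfl | hz
      · exact h b hb
      · refine hb.2 z ?_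
        rw [mem_erase] at hz ⊢
        exact ⟨hz.1, (mem_sdiff.1 (hT' hz.2)).1⟩
    obtain ⟨R', hR'⟩ : ∃ R', R' = insert x (R.erase y₀) := ⟨_, rfl⟩
    have hGd : Gd C φ XS N R' := by
      refine ⟨?_, ?_, ?_⟩
      · rw [hR']
        intro z hz
        rw [mem_insert] at hz
        rcases hz with rfl | hz
        · exact hC.mem
        · exact hR.sub (mem_of_mem_erase hz)
      · rw [hR']
        exact hcf _ (erase_subset _ _)
      · rw [hR']
        exact In_insert (In_sub (erase_subset _ _) hR.ind) h6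
    have hcard : R'.card = r := by
      rw [hR', card_insert_of_notMem (fun h => hxR (mem_of_mem_erase h)),
        card_erase_of_mem hy₀R, hr]
      have : 0 < R.card := card_pos.2 ⟨y₀, hy₀R⟩
      omega
    have hw1 : ∀ w ∈ L₁, ∀ z ∈ N w, z ∈ R' ↔ z ∈ R := by
      intro w hw z hz
      rw [hR', mem_insert, mem_erase]
      constructor
      · rintro (rfl | h)
        · exact absurd hz (hC.l w (hL₁L w hw))
        · exact h.2
      · intro h
        right
        refine ⟨?_, h⟩
        rintro rfl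
        exact hy₀S (mem_filter.2 ⟨h, w, hw, hz⟩)
    have hw2 : ∀ L : List X, (∀ w ∈ L, w ∈ L₁) → ∀ v, Dp C φ (R' \ SS N R' L) v →
        Dp C φ (R \ SS N R L) v := by
      intro L' hL' v hv b hb
      apply hv b
      refine ⟨hb.1, fun z hz => ?_⟩
      obtain ⟨hz0, hz2⟩ := mem_sdiff.1 hz
      have hz1 := hz0
      rw [hR', mem_insert] at hz1
      rcases hz1 with rfl | hz1
      · refine Dp_mono ?_ h1 b hb
        intro a ha
        rw [mem_sdiff] at ha ⊢
        exact ⟨ha.1, fun h => ha.2 (SS_sub hL' h)⟩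
      · refine hb.2 z (mem_sdiff.2 ⟨mem_of_mem_erase hz1, fun h => hz2 ?_⟩)
        obtain ⟨-, w, hw, h7⟩ := mem_filter.1 h
        exact mem_filter.2 ⟨hz0, w, hw, h7⟩
    rw [hL] at hA
    have hA1 : Am C φ XS N R (y :: L₁) := Am_tail hA
    obtain ⟨t1, t2⟩ := Am_transfer (XS := XS) hw1 hw2 L₁ (fun w hw => hw)
    refine ⟨L₂, y, L₁, R', hL, hGd, hcard, hw1, t1 hA1.1, t2 y hA1.2.1, ?_⟩
    rw [Finset.ssubset_iff_of_subset]
    · refine ⟨y₀, mem_inter.2 ⟨hy₀N, hy₀R⟩, fun h => ?_⟩
      have h7 := (mem_inter.1 h).2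
      rw [hR', mem_insert] at h7
      rcases h7 with h7 | h7
      · exact hne h7.symm
      · exact absurd rfl (ne_of_mem_erase h7)
    · intro z hz
      obtain ⟨h7, h8⟩ := mem_inter.1 hz
      rw [hR', mem_insert] at h8
      rcases h8 with rfl | h8
      · exact absurd h7 (hC.l y hyL)
      · exact mem_inter.2 ⟨h7, mem_of_mem_erase h8⟩
  · left
    refine ⟨insert x R, ⟨?_, hcf R (Subset.refl _), In_insert hR.ind hD⟩, ?_⟩
    · intro z hz
      rw [mem_insert] at hz
      rcases hz with rfl | hz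
      · exact hC.mem
      · exact hR.sub hz
    · rw [card_insert_of_notMem hxR, hr]

/-- the claim, by downward induction on the length of the list -/
theorem claim (href : ∀ x ∈ XS, x ∈ N x) (hsym : ∀ x ∈ XS, ∀ y ∈ XS, y ∈ N x → x ∈ N y)
    {r : ℕ} (hcand : ∀ (R : Finset X) (L : List X), Gd C φ XS N R → R.card = r →
      Am C φ XS N R L → ∃ x, Cd C φ XS N R L x) :
    ∀ (k : ℕ) (R : Finset X) (L : List X), r + 1 ≤ L.length + k → Gd C φ XS N R → R.card = r →
      Am C φ XS N R L → Ou C φ XS N r R L := by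
  intro k
  induction k with
  | zero =>
    intro R L hL hR hr hA
    exfalso
    have h1 := Am_len hsym hR.sub hA
    have h2 : (SS N R L).card ≤ R.card := card_filter_le _ _
    omega
  | succ k ih =>
    intro R L hL hR hr hA
    obtain ⟨x, hx⟩ := hcand R L hR hr hA
    have inner : ∀ (t : ℕ) (R : Finset X), (N x ∩ R).card = t → Gd C φ XS N R → R.card = r →
        Am C φ XS N R L → Cd C φ XS N R L x → Ou C φ XS N r R L := by
      intro t
      induction t using Nat.strong_induction_on with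
      | _ t iht =>
      intro R ht hR hr hA hx
      by_cases h0 : N x ∩ R = ∅
      · exact free href hsym hR hr hA hx h0
      · obtain ⟨z, hz⟩ := nonempty_iff_ne_empty.2 h0
        obtain ⟨hz1, hz2⟩ := mem_inter.1 hz
        have hA' : Am C φ XS N R (x :: L) := ⟨hA, hx, z, hz2, hz1⟩
        rcases ih R (x :: L) (by rw [List.length_cons]; omega) hR hr hA' with h | h
        · exact Or.inl h
        · obtain ⟨L₂, y, L₁, R', hL', hR', hr', h1, h2, h3, h4⟩ := h
          rcases L₂ with _ | ⟨x', L₂⟩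
          · rw [List.nil_append, List.cons.injEq] at hL'
            obtain ⟨rfl, rfl⟩ := hL'
            have h5 := card_lt_card h4
            rcases iht _ (by omega) R' rfl hR' hr' h2 h3 with h | h
            · exact Or.inl h
            · obtain ⟨L₂', y', L₁', R'', e1, e2, e3, e4, e5, e6, e7⟩ := h
              refine Or.inr ⟨L₂', y', L₁', R'', e1, e2, e3, ?_, e5, e6, ?_⟩
              · intro w hw z hz
                rw [e4 w hw z hz]
                exact h1 w (by rw [e1]; simp [hw]) z hz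
              · have e8 : N y' ∩ R' = N y' ∩ R := by
                  ext z
                  rw [mem_inter, mem_inter]
                  refine and_congr_right fun hz => h1 y' (by rw [e1]; simp) z hz
                rwa [e8] at e7
          · rw [List.cons_append, List.cons.injEq] at hL'
            obtain ⟨-, hL'⟩ := hL'
            exact Or.inr ⟨L₂, y, L₁, R', hL', hR', hr', h1, h2, h3, h4⟩
    exact inner _ R rfl hR hr hA hx

end Lists

theorem hax {K X W : Type} [Field K] [DecidableEq X] [AddCommGroup W] [Module K W]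
    [FiniteDimensional K W]
    (C : Submodule K W) (φ : X → W →ₗ[K] K) (XS : Finset X)
    (N : X → Finset X) (B : ℕ) (hB : 1 ≤ B) (href : ∀ x ∈ XS, x ∈ N x)
    (hsym : ∀ x ∈ XS, ∀ y ∈ XS, y ∈ N x → x ∈ N y) (hNB : ∀ x ∈ XS, (N x).card ≤ B)
    (hall : ∀ Λ' ≤ C, Λ' ≠ ⊥ → ∃ Y ⊆ XS, (∀ x ∈ Y, ∃ b ∈ Λ', φ x b ≠ 0) ∧
      2 * B * Module.finrank K Λ' ≤ Y.card) :
    ∃ R ⊆ XS, (∀ x ∈ R, ∀ y ∈ R, x ≠ y → y ∉ N x) ∧ R.card ≤ Module.finrank K C ∧
      ∀ b ∈ C, (∀ x ∈ R, φ x b = 0) → b = 0 := by
  -- candidates exist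
  have hcand : ∀ r < Module.finrank K C, ∀ (R : Finset X) (L : List X), Gd C φ XS N R →
      R.card = r → Am C φ XS N R L → ∃ x, Cd C φ XS N R L x := by
    intro r hr R L hR hRr hA
    have h1 := Am_len hsym hR.sub hA
    have h2 := fr_low (C := C) (φ := φ) (R \ SS N R L)
    have h3 : (R \ SS N R L).card + (SS N R L).card = R.card := by
      rw [card_sdiff_add_card_eq_card]
      exact filter_subset _ _
    have h4 : 1 + (SS N R L).card ≤ Module.finrank K (Kr C φ (R \ SS N R L)) := by omega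
    have h5 : Kr C φ (R \ SS N R L) ≠ ⊥ := by
      intro h
      rw [h, finrank_bot] at h4
      omega
    obtain ⟨Y, hY, hY1, hY2⟩ := hall (Kr C φ (R \ SS N R L)) (fun b hb => hb.1) h5
    obtain ⟨F, hF⟩ : ∃ F, F = L.toFinset.biUnion N ∪ (SS N R L).biUnion N := ⟨_, rfl⟩
    have hFc : F.card ≤ 2 * B * (SS N R L).card := by
      have e1 : (L.toFinset.biUnion N).card ≤ L.toFinset.card * B := by
        refine card_biUnion_le_card_mul _ _ _ fun y hy => hNB y ?_
        exact Am_mem hA y (List.mem_toFinset.1 hy)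
      have e2 : ((SS N R L).biUnion N).card ≤ (SS N R L).card * B := by
        refine card_biUnion_le_card_mul _ _ _ fun y hy => hNB y ?_
        exact hR.sub (mem_filter.1 hy).1
      have e3 := List.toFinset_card_le L
      have e4 := card_union_le (L.toFinset.biUnion N) ((SS N R L).biUnion N)
      rw [← hF] at e4
      have e5 : L.toFinset.card * B ≤ (SS N R L).card * B :=
        Nat.mul_le_mul_right _ (e3.trans h1)
      have e6 : 2 * B * (SS N R L).card = (SS N R L).card * B + (SS N R L).card * B := by ring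
      omega
    have h6 : 2 * B * (1 + (SS N R L).card) ≤ 2 * B * Module.finrank K (Kr C φ (R \ SS N R L)) :=
      Nat.mul_le_mul_left _ h4
    have h7 : 2 * B * (1 + (SS N R L).card) = 2 * B + 2 * B * (SS N R L).card := by ring
    have h8 : F.card < Y.card := by omega
    obtain ⟨x, hxY, hxF⟩ := exists_mem_notMem_of_card_lt_card h8
    refine ⟨x, hY hxY, ?_, ?_, ?_⟩
    · intro y hy h
      apply hxF
      rw [hF]
      exact mem_union_left _ (mem_biUnion.2 ⟨y, List.mem_toFinset.2 hy, h⟩)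
    · intro y hy h
      apply hxF
      rw [hF]
      exact mem_union_right _ (mem_biUnion.2 ⟨y, hy, h⟩)
    · obtain ⟨b, hb, hbx⟩ := hY1 x hxY
      exact fun h => hbx (h b hb)
  have step : ∀ r ≤ Module.finrank K C, ∃ R, Gd C φ XS N R ∧ R.card = r := by
    intro r
    induction r with
    | zero =>
      intro _
      refine ⟨∅, ⟨empty_subset _, ?_, ?_⟩, card_empty⟩
      · intro x hx
        exact absurd hx (notMem_empty x)
      · intro x hx
        exact absurd hx (notMem_empty x)
    | succ r ih =>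
      intro hr
      obtain ⟨R, hR, hRr⟩ := ih (by omega)
      rcases claim href hsym (hcand r (by omega)) (r + 1) R [] (by simp) hR hRr trivial with h | h
      · exact h
      · obtain ⟨L₂, y, L₁, R', h, -⟩ := h
        simp at h
  obtain ⟨R, hR, hRr⟩ := step _ le_rfl
  refine ⟨R, hR.sub, hR.cf, hRr.le, ?_⟩
  intro b hb hbR
  have h1 := fr_up R hR.ind
  have h2 : Module.finrank K (Kr C φ R) = 0 := by omega
  rw [Submodule.finrank_eq_zero] at h2
  have h3 : b ∈ Kr C φ R := ⟨hb, hbR⟩
  rw [h2, Submodule.mem_bot] at h3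
  exact h3

end Pool.Agent.Helper12.GD
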