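import Pool.Agent.Helper12.GD.St
import Pool.Agent.Helper12.GD.M_HAX
import Pool.Agent.Helper82.RD.Nxt

/-!
# Project GD: linear absorption
-/

set_option autoImplicit false

open Finset MP86d903 Pool.Agent.Helper82.RD

namespace Pool.Agent.Helper12.GD

variable {ι V : Type} [DecidableEq ι] [Fintype ι] [Fintype V] [DecidableEq V]
  {vs : ι → Finset V} {q q₀ : ℕ}

/-- the parity functional of an atom -/
noncomputable def ph (vs : ι → Finset V) (A : Finset V) (x : V) : (V → ZMod 2) →ₗ[ZMod 2] ZMod 2 :=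
  ∑ i ∈ att vs A x, LinearMap.proj i

omit [DecidableEq ι] [Fintype ι] in
theorem ph_apply (A : Finset V) (x : V) (b : V → ZMod 2) : ph vs A x b = bs vs A b x := by
  unfold ph bs
  rw [LinearMap.sum_apply]
  rfl

/-- an enlargement of `G` with few elements which is minimal for absorption -/
theorem absorb (h3 : ∀ c, (vs c).card = 3) (hq2 : 2 ≤ q) (τ r : ℕ)
    {Λ : Submodule (ZMod 2) (V → ZMod 2)} (hΛ : Module.finrank (ZMod 2) Λ ≤ r)
    (G : Finset V) :
    ∃ (E : Finset V) (C : Submodule (ZMod 2) (V → ZMod 2)), E.card ≤ τ * r ∧ C ≤ Λ ∧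
      (∀ b ∈ Λ, ∃ p ∈ PM vs (Cl vs q (G ∪ E)), ∃ c ∈ C, p ∈ Λ ∧ b = p + c) ∧
      ∀ Λ' ≤ C, Λ' ≠ ⊥ → ∃ Y : Finset V, (∀ x ∈ Y, x ∉ Cl vs q (G ∪ E)) ∧
        (∀ x ∈ Y, ∃ b ∈ Λ', bs vs (Cl vs q (G ∪ E)) b x ≠ 0) ∧
        τ * Module.finrank (ZMod 2) Λ' ≤ Y.card := by
  classical
  obtain ⟨pot, hpot⟩ : ∃ pot : Finset V → ℕ, pot = fun E => E.card + τ *
    (Module.finrank (ZMod 2) Λ - Module.finrank (ZMod 2)
      (Λ ⊓ PM vs (Cl vs q (G ∪ E)) : Submodule (ZMod 2) (V → ZMod 2))) := ⟨_, rfl⟩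
  obtain ⟨E, -, hE⟩ := exists_min_image (univ : Finset (Finset V)) pot univ_nonempty
  have hE0 := hE ∅ (mem_univ _)
  have hEc : E.card ≤ τ * r := by
    have h1 : E.card ≤ pot E := by
      rw [hpot]
      exact Nat.le_add_right _ _
    have h2 : pot ∅ ≤ τ * r := by
      rw [hpot]
      simp only [card_empty, zero_add]
      exact Nat.mul_le_mul_left _ ((Nat.sub_le _ _).trans hΛ)
    omega
  obtain ⟨A, hA⟩ : ∃ A, A = Cl vs q (G ∪ E) := ⟨_, rfl⟩
  obtain ⟨P', hP'⟩ : ∃ P' : Submodule (ZMod 2) (V → ZMod 2), P' = Λ ⊓ PM vs A := ⟨_, rfl⟩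
  have hP'Λ : P' ≤ Λ := by
    rw [hP']
    exact inf_le_left
  obtain ⟨C', hC'⟩ := Submodule.exists_isCompl P'
  obtain ⟨C, hC⟩ : ∃ C, C = C' ⊓ Λ := ⟨_, rfl⟩
  have hsup : P' ⊔ C = Λ := by
    rw [hC, ← sup_inf_assoc_of_le C' hP'Λ, hC'.sup_eq_top, top_inf_eq]
  have hinf : P' ⊓ C = ⊥ := by
    rw [eq_bot_iff, hC]
    exact (inf_le_inf_left _ inf_le_left).trans hC'.inf_eq_bot.le
  refine ⟨E, C, hEc, by rw [hC]; exact inf_le_right, ?_, ?_⟩
  · intro b hb
    rw [← hsup, Submodule.mem_sup] at hb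
    obtain ⟨p, hp, c, hc, rfl⟩ := hb
    have hp' := hp
    rw [hP', Submodule.mem_inf] at hp'
    rw [← hA]
    exact ⟨p, hp'.2, c, hc, hp'.1, rfl⟩
  · intro Λ' hΛ' hne
    rw [← hA]
    obtain ⟨Y, hY⟩ : ∃ Y : Finset V, Y = univ.filter
      (fun x => x ∉ A ∧ ∃ b ∈ Λ', bs vs A b x ≠ 0) := ⟨_, rfl⟩
    refine ⟨Y, ?_, ?_, ?_⟩
    · intro x hx
      rw [hY] at hx
      exact (mem_filter.1 hx).2.1
    · intro x hx
      rw [hY] at hx
      exact (mem_filter.1 hx).2.2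
    · by_contra hcon
      rw [not_le] at hcon
      have h1 := hE (E ∪ Y) (mem_univ _)
      have h2 : P' ⊔ Λ' ≤ Λ ⊓ PM vs (Cl vs q (G ∪ (E ∪ Y))) := by
        refine sup_le (le_inf hP'Λ ?_) (le_inf ?_ ?_)
        · have h3' : P' ≤ PM vs A := by
            rw [hP']
            exact inf_le_right
          refine h3'.trans ?_
          rw [hA]
          refine pmm h3 hq2 _ _ ?_
          exact union_subset_union_right subset_union_left
        · refine hΛ'.trans ?_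
          rw [hC]
          exact inf_le_right
        · intro b hb
          refine per h3 hq2 (G ∪ E) (G ∪ (E ∪ Y))
            (union_subset_union_right subset_union_left) b ?_
          intro x hx
          rw [← hA]
          by_contra hne'
          apply hx
          apply subset_Cl q _
          apply mem_union_right
          apply mem_union_right
          rw [hY]
          refine mem_filter.2 ⟨mem_univ _, ?_, b, hb, hne'⟩
          intro hxA
          apply hx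
          rw [hA] at hxA
          exact Cl_mono (union_subset_union_right subset_union_left) hxA
      have h4 := Submodule.finrank_mono h2
      have h5 := Submodule.finrank_sup_add_finrank_inf_eq P' Λ'
      have h6 : P' ⊓ Λ' = ⊥ := by
        rw [eq_bot_iff, ← hinf]
        exact inf_le_inf_left _ hΛ'
      rw [h6, finrank_bot, add_zero] at h5
      have h7 : Module.finrank (ZMod 2) (Λ ⊓ PM vs (Cl vs q (G ∪ (E ∪ Y))) :
        Submodule (ZMod 2) (V → ZMod 2)) ≤ Module.finrank (ZMod 2) Λ :=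
        Submodule.finrank_mono inf_le_left
      have h8 : (E ∪ Y).card ≤ E.card + Y.card := card_union_le _ _
      rw [hpot] at h1
      simp only at h1
      rw [← hA, ← hP'] at h1
      rw [h5] at h4
      generalize Module.finrank (ZMod 2) (Λ ⊓ PM vs (Cl vs q (G ∪ (E ∪ Y))) :
        Submodule (ZMod 2) (V → ZMod 2)) = p₂ at *
      generalize Module.finrank (ZMod 2) P' = p₁ at *
      generalize Module.finrank (ZMod 2) Λ' = l at *
      generalize Module.finrank (ZMod 2) Λ = f at *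
      have h9 : τ * (f - p₂) + τ * l ≤ τ * (f - p₁) := by
        rw [← Nat.mul_add]
        exact Nat.mul_le_mul_left _ (by omega)
      omega

theorem lin (hFAR : StFAR) (hBAL : StBAL) (h3 : ∀ c, (vs c).card = 3) {D r : ℕ}
    (hq2 : 2 ≤ q) (hq : q₀ + r ≤ q) {T₁ : Finset V}
    (hD : ∀ x, x ∉ T₁ → (univ.filter (fun c => x ∈ vs c)).card ≤ D)
    {Λ : Submodule (ZMod 2) (V → ZMod 2)} (hΛ : Module.finrank (ZMod 2) Λ ≤ r)
    (G : Finset V) (hG : T₁ ⊆ G) :
    ∃ E J : Finset V, E.card ≤ 2 * (3 * D + 1) ^ 7 * r ∧ J.card ≤ 2 * r ∧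
      SPa vs q₀ (Cl vs q (G ∪ E) ∪ J) ∧ SPb vs (Cl vs q (G ∪ E) ∪ J) ∧
      ∀ b ∈ Λ, ∑ i ∈ (Cl vs q (G ∪ E) ∪ J)ᶜ, b i = 0 := by
  classical
  obtain ⟨E, C, hEc, hCΛ, hdec, hall⟩ := absorb (q := q) h3 hq2 (2 * (3 * D + 1) ^ 7) r hΛ G
  obtain ⟨A, hA⟩ : ∃ A, A = Cl vs q (G ∪ E) := ⟨_, rfl⟩
  rw [← hA] at hdec hall
  have hcl : Closed vs q A := by
    rw [hA]
    exact closed_Cl q _
  have hCL : CL vs q A := mCLB h3 hq2 hcl
  have hAP : AP vs A := mATP hCL
  have hD' : ∀ x, x ∉ A → (univ.filter (fun c => x ∈ vs c)).card ≤ D := by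
    intro x hx
    refine hD x (fun h => hx ?_)
    rw [hA]
    exact subset_Cl q _ (mem_union_left _ (hG h))
  obtain ⟨w1, w2, w3⟩ := hBAL ι V vs h3 A D hD'
  obtain ⟨R, hR, hRcf, hRc, hRker⟩ := hax C (ph vs A) (univ.filter (fun x => x ∉ A)) (N7 vs A)
    ((3 * D + 1) ^ 7) (Nat.one_le_pow _ _ (by omega))
    (by
      intro x hx
      exact mem_filter.2 ⟨mem_univ _, w2 x (mem_filter.1 hx).2⟩)
    (by
      intro x _ y _ h
      exact mem_filter.2 ⟨mem_univ _, w1 x y (mem_filter.1 h).2⟩)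
    (by
      intro x hx
      exact w3 x (mem_filter.1 hx).2)
    (by
      intro Λ' hΛ' hne
      obtain ⟨Y, hY1, hY2, hY3⟩ := hall Λ' hΛ' hne
      refine ⟨Y, fun x hx => mem_filter.2 ⟨mem_univ _, hY1 x hx⟩, ?_, hY3⟩
      intro x hx
      obtain ⟨b, hb, hbx⟩ := hY2 x hx
      exact ⟨b, hb, by rwa [ph_apply]⟩)
  have hRA : ∀ x ∈ R, x ∉ A := fun x hx => (mem_filter.1 (hR hx)).2
  have hRr : R.card ≤ r := hRc.trans ((Submodule.finrank_mono hCΛ).trans hΛ)
  have hout : ∀ x ∈ Aᶜ, att vs A x ⊆ Aᶜ := by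
    intro x hx
    rw [mem_compl] at hx
    intro i hi
    rw [mem_compl]
    exact disjoint_left.1 (hAP.dis x hx) hi
  obtain ⟨I, hI, hIb⟩ := mGRL Λ Aᶜ (R.image (att vs A)) (by
    intro b hb he
    obtain ⟨p, hp, c, hc, -, rfl⟩ := hdec b hb
    have hc0 : c = 0 := by
      refine hRker c hc ?_
      intro x hx
      have e1 := he _ (mem_image_of_mem _ hx)
      have e2 := mem_PM.1 hp x (hRA x hx)
      unfold bs at e2
      rw [ph_apply]
      unfold bs
      have e3 : ∑ i ∈ att vs A x, (p + c) i = ∑ i ∈ att vs A x, p i + ∑ i ∈ att vs A x, c i :=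
        sum_add_distrib
      rw [e3, e2, zero_add] at e1
      exact e1
    rw [hc0, add_zero]
    exact mSUM hAP hp Aᶜ disjoint_compl_left hout)
  obtain ⟨R', hR'⟩ : ∃ R', R' = R.filter (fun x => att vs A x ∈ I) := ⟨_, rfl⟩
  have hR'R : R' ⊆ R := by
    rw [hR']
    exact filter_subset _ _
  have hJI : R'.biUnion (att vs A) = I.biUnion id := by
    ext z
    rw [mem_biUnion, mem_biUnion]
    constructor
    · rintro ⟨x, hx, hz⟩
      rw [hR'] at hx
      exact ⟨_, (mem_filter.1 hx).2, hz⟩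
    · rintro ⟨e, he, hz⟩
      obtain ⟨x, hx, rfl⟩ := mem_image.1 (hI he)
      refine ⟨x, ?_, hz⟩
      rw [hR']
      exact mem_filter.2 ⟨hx, he⟩
  obtain ⟨hUA, hSP⟩ := hFAR ι V vs q q₀ r A mGGI hCL hAP hq R' (fun x hx => hRA x (hR'R hx))
    ((card_le_card hR'R).trans hRr) (by
      intro x hx y hy hxy h
      exact hRcf x (hR'R hx) y (hR'R hy) hxy (mem_filter.2 ⟨mem_univ _, h⟩))
  obtain ⟨J, hJ⟩ : ∃ J, J = R'.biUnion (att vs A) := ⟨_, rfl⟩
  rw [← hJ] at hUA hSP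
  refine ⟨E, J, hEc, ?_, ?_, ?_, ?_⟩
  · rw [hJ]
    refine (card_biUnion_le_card_mul R' _ 2 fun x hx => hAP.two x (hRA x (hR'R hx))).trans ?_
    have := (card_le_card hR'R).trans hRr
    omega
  · rw [← hA]
    exact hSP
  · rw [← hA]
    exact mSPB hCL hUA
  · rw [← hA]
    intro b hb
    have hJA : Disjoint J A := hUA.disj
    have e1 : (A ∪ J)ᶜ = Aᶜ \ J := by
      ext i
      simp only [mem_compl, mem_union, mem_sdiff, not_or]
    have hsubc : J ⊆ Aᶜ := by
      intro i hi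
      rw [mem_compl]
      exact disjoint_left.1 hJA hi
    have e2 := sum_sdiff (f := b) hsubc
    have e3 : ∑ i ∈ J, b i = ∑ e ∈ I, ∑ i ∈ e, b i := by
      rw [hJ, hJI, sum_biUnion]
      · rfl
      · intro e he e' he' hne
        rw [Function.onFun, disjoint_left]
        intro x hx hx'
        apply hne
        obtain ⟨y, hy, rfl⟩ := mem_image.1 (hI he)
        obtain ⟨y', hy', rfl⟩ := mem_image.1 (hI he')
        rw [← hAP.eqv y x (hRA y hy) hx, ← hAP.eqv y' x (hRA y' hy') hx']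
    rw [e1]
    rw [hIb b hb, ← e3] at e2
    have e4 : ∑ i ∈ Aᶜ \ J, b i + ∑ i ∈ J, b i = 0 + ∑ i ∈ J, b i := by rw [e2, zero_add]
    exact add_right_cancel e4

end Pool.Agent.Helper12.GD
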