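import Pool.Agent.Helper43.GD.St

/-!
Project GD, module CT: the centralizer of the inner automorphisms of a perfect group.
-/

set_option autoImplicit false

namespace Pool.Agent.Helper12.GD

open Pool.Agent.Helper43.GD
open scoped commutatorElement

/-- module CT -/
theorem hCT : StCT := by
  intro H _ hperf S hS θ hθ
  -- `θ g` and `g` induce the same inner automorphism
  have h1 : (MulAut.conj (G := H)).comp θ.toMonoidHom = MulAut.conj := by
    apply MonoidHom.eq_of_eqOn_dense hS
    intro g hg
    have e := hθ g hg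
    ext x
    have e2 : θ (MulAut.conj g (θ.symm x)) = MulAut.conj g (θ (θ.symm x)) :=
      congrArg (fun ψ : MulAut H => ψ (θ.symm x)) e
    rw [MulEquiv.apply_symm_apply, MulAut.conj_apply, MulAut.conj_apply, map_mul, map_mul,
      map_inv, MulEquiv.apply_symm_apply] at e2
    exact e2
  have h2 : ∀ g x : H, θ g * x * (θ g)⁻¹ = g * x * g⁻¹ := by
    intro g x
    have := congrArg (fun ψ : H →* MulAut H => ψ g x) h1
    exact this
  -- `θ` fixes the commutators
  have h3 : ∀ g h : H, θ ⁅g, h⁆ = ⁅g, h⁆ := by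
    intro g h
    have e1 := h2 g (θ h)
    have e2 := h2 h g⁻¹
    rw [commutatorElement_def, map_mul, map_mul, map_mul, map_inv, map_inv, e1]
    calc g * θ h * g⁻¹ * (θ h)⁻¹ = g * (θ h * g⁻¹ * (θ h)⁻¹) := by group
      _ = g * (h * g⁻¹ * h⁻¹) := by rw [e2]
      _ = g * h * g⁻¹ * h⁻¹ := by group
  have h4 : θ.toMonoidHom = MonoidHom.id H := by
    rw [commutator_eq_closure] at hperf
    apply MonoidHom.eq_of_eqOn_dense hperf
    rintro _ ⟨g, h, rfl⟩
    exact h3 g h
  ext g
  exact congrArg (fun ψ : H →* H => ψ g) h4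

end Pool.Agent.Helper12.GD
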