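import Pool.Agent.Helper58.RD.NUM

/-!
# Project GD: numbers
-/

set_option autoImplicit false

open Filter

namespace Pool.Agent.Helper12.GD

theorem num {ρ η Δ : ℝ} (hρ : 0 < ρ) (hη : 0 < η) (hΔ : 0 < Δ) :
    ∃ (ε δ : ℝ) (D : ℕ), 0 < ε ∧ 0 < δ ∧ ∀ᶠ n : ℕ in Filter.atTop, ∃ w t₀ s k r M : ℕ,
      35 * M ≤ ⌊ρ * n⌋₊ ∧
      t₀ + k + 2 * w + 4 * ((3 * D + 1) ^ 7 * r) + 4 * r ≤ M ∧
      (37 * M : ℝ) ≤ η * n ∧ ε * n ≤ w ∧ (∀ j : ℕ, ε * n ≤ j → w ≤ j) ∧ 0 < δ * n ∧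
      δ * n ≤ s ∧ 74 * t₀ ≤ w ∧ w ≤ n ∧ 1 ≤ M ∧
      (∀ j : ℕ, (D + 1) * j ≤ 3 * ⌊Δ * n⌋₊ → j ≤ k) ∧ δ * (n : ℝ) ≤ r + 1 ∧
      (2 : ℝ) ^ (δ * n) * (1 - w / (8 * n)) ^ t₀ * 2 ^ s < 2 := by
  obtain ⟨ε, hε⟩ : ∃ ε : ℝ, ε = min (min (ρ / 200) (η / 400)) (1 / 4) := ⟨_, rfl⟩
  have hε0 : 0 < ε := by
    rw [hε]
    positivity
  have hεr : ε ≤ ρ / 200 := by
    rw [hε]
    exact (min_le_left _ _).trans (min_le_left _ _)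
  have hεη : ε ≤ η / 400 := by
    rw [hε]
    exact (min_le_left _ _).trans (min_le_right _ _)
  have hε4 : ε ≤ 1 / 4 := by
    rw [hε]
    exact min_le_right _ _
  obtain ⟨D, hD⟩ : ∃ D : ℕ, D = ⌈6 * Δ / ε⌉₊ := ⟨_, rfl⟩
  have hD1 : 6 * Δ ≤ D * ε := by
    have : 6 * Δ / ε ≤ D := by rw [hD]; exact Nat.le_ceil _
    rwa [div_le_iff₀ hε0] at this
  obtain ⟨C, hC⟩ : ∃ C : ℝ, C = 4 * (3 * (D : ℝ) + 1) ^ 7 + 4 := ⟨_, rfl⟩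
  have hC0 : 0 < C := by
    rw [hC]
    positivity
  obtain ⟨δ, hδ⟩ : ∃ δ : ℝ, δ = min (ε ^ 2 / 2400) (ε / C) := ⟨_, rfl⟩
  have hδ0 : 0 < δ := by
    rw [hδ]
    positivity
  have hδ1 : δ ≤ ε ^ 2 / 2400 := by
    rw [hδ]
    exact min_le_left _ _
  have hδ2 : C * δ ≤ ε := by
    have h : δ ≤ ε / C := by
      rw [hδ]
      exact min_le_right _ _
    rw [le_div_iff₀ hC0] at h
    linarith
  refine ⟨ε, δ, D, hε0, hδ0, ?_⟩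
  have hev : ∀ᶠ n : ℕ in atTop, 5 / ε + 10 / ρ + 400 / ε + 4 ≤ (n : ℝ) :=
    tendsto_natCast_atTop_atTop.eventually_ge_atTop _
  filter_upwards [hev] with n hn
  have p1 : 0 < 5 / ε := by positivity
  have p2 : 0 < 10 / ρ := by positivity
  have p3 : 0 < 400 / ε := by positivity
  have h1 : 5 / ε ≤ n := by linarith
  have h2 : 10 / ρ ≤ n := by linarith
  have h3 : 400 / ε ≤ n := by linarith
  have h4 : (4 : ℝ) ≤ n := by linarith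
  rw [div_le_iff₀ hε0] at h1 h3
  rw [div_le_iff₀ hρ] at h2
  have hn0 : (0 : ℝ) < n := by linarith
  have hδn : 0 < δ * n := by positivity
  obtain ⟨w, hw⟩ : ∃ w, w = ⌈ε * n⌉₊ := ⟨_, rfl⟩
  obtain ⟨s, hs⟩ : ∃ s, s = ⌈δ * n⌉₊ := ⟨_, rfl⟩
  obtain ⟨k, hk⟩ : ∃ k, k = ⌊3 * Δ * n / (D + 1)⌋₊ := ⟨_, rfl⟩
  obtain ⟨r, hr⟩ : ∃ r, r = ⌊δ * (n : ℝ)⌋₊ := ⟨_, rfl⟩
  have hw1 : ε * n ≤ w := by
    rw [hw]
    exact Nat.le_ceil _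
  have hw2 : (w : ℝ) < ε * n + 1 := by
    rw [hw]
    exact Nat.ceil_lt_add_one (by positivity)
  have hs1 : δ * n ≤ s := by
    rw [hs]
    exact Nat.le_ceil _
  have hs2 : (s : ℝ) < δ * n + 1 := by
    rw [hs]
    exact Nat.ceil_lt_add_one hδn.le
  obtain ⟨t₀, ht₀⟩ : ∃ t₀, t₀ = w / 74 := ⟨_, rfl⟩
  have ht1 : 74 * t₀ ≤ w := by
    rw [ht₀]
    exact Nat.mul_div_le w 74
  have ht2 : w < 74 * t₀ + 74 := by
    rw [ht₀]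
    omega
  have ht1' : (74 * t₀ : ℝ) ≤ w := by exact_mod_cast ht1
  have ht2' : (w : ℝ) < 74 * t₀ + 74 := by exact_mod_cast ht2
  -- bound for k
  have hD0 : (0 : ℝ) < (D : ℝ) + 1 := by positivity
  have hk1 : (k : ℝ) ≤ ε * n / 2 := by
    have hk2 : (k : ℝ) ≤ 3 * Δ * n / (D + 1) := by
      rw [hk]
      exact Nat.floor_le (by positivity)
    refine hk2.trans ?_
    rw [div_le_iff₀ hD0]
    have : 6 * Δ * n ≤ D * ε * n := mul_le_mul_of_nonneg_right hD1 hn0.le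
    nlinarith [mul_pos hε0 hn0]
  have hk3 : ∀ j : ℕ, (D + 1) * j ≤ 3 * ⌊Δ * n⌋₊ → j ≤ k := by
    intro j hj
    rw [hk]
    apply Nat.le_floor
    rw [le_div_iff₀ hD0]
    have h5 : (((D + 1) * j : ℕ) : ℝ) ≤ ((3 * ⌊Δ * n⌋₊ : ℕ) : ℝ) := by exact_mod_cast hj
    push_cast at h5
    have h6 : (⌊Δ * n⌋₊ : ℝ) ≤ Δ * n := Nat.floor_le (by positivity)
    nlinarith
  -- bound for r
  have hr1 : (r : ℝ) ≤ δ * n := by
    rw [hr]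
    exact Nat.floor_le hδn.le
  have hr2 : δ * (n : ℝ) ≤ r + 1 := by
    rw [hr]
    exact (Nat.lt_floor_add_one _).le
  have hrr : C * (r : ℝ) ≤ ε * n := by
    calc C * (r : ℝ) ≤ C * (δ * n) := mul_le_mul_of_nonneg_left hr1 hC0.le
      _ = C * δ * n := by ring
      _ ≤ ε * n := mul_le_mul_of_nonneg_right hδ2 hn0.le
  obtain ⟨M, hMdef⟩ : ∃ M : ℕ,
      M = t₀ + k + 2 * w + 4 * ((3 * D + 1) ^ 7 * r) + 4 * r := ⟨_, rfl⟩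
  have hM : (M : ℝ) ≤ 5 * (ε * n) := by
    rw [hMdef]
    push_cast
    have h5 : (t₀ : ℝ) + k + 2 * w + 4 * ((3 * D + 1) ^ 7 * r) + 4 * r =
        t₀ + k + 2 * w + C * r := by
      rw [hC]
      ring
    rw [h5]
    linarith
  have hwn : (w : ℝ) ≤ n := by nlinarith
  have hwone : 1 ≤ w := by
    have : (0 : ℝ) < w := lt_of_lt_of_le (by positivity) hw1
    exact_mod_cast this
  refine ⟨w, t₀, s, k, r, M, ?_, hMdef.ge, ?_, hw1, ?_, hδn, hs1, ht1, ?_, ?_, hk3, hr2, ?_⟩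
  · rw [Nat.le_floor_iff (by positivity), Nat.cast_mul]
    have h5 : ε * n ≤ ρ / 200 * n := mul_le_mul_of_nonneg_right hεr hn0.le
    push_cast
    nlinarith
  · have h5 : ε * n ≤ η / 400 * n := mul_le_mul_of_nonneg_right hεη hn0.le
    nlinarith
  · intro j hj
    rw [hw]
    exact Nat.ceil_le.mpr hj
  · exact_mod_cast hwn
  · omega
  · exact Pool.Agent.Helper58.RD.expo hε0 hδ0 hδ1 hn0 h3 hw1 hwn hs2 ht2'

end Pool.Agent.Helper12.GD
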