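import Pool.Agent.Helper12.GD.Defs

/-!
# Project GD (MP_86d903_lc): the modules

THEOREM (GlobalDirections).  For all `Δ, η > 0` there are `ε, δ > 0` such that with probability tending to one every
cutting planes refutation of the random formula has more than `2 ^ (δ n)` critical divisions with a light conclusion, or
the coefficient vectors modulo two of ALL its critical divisions with a heavy conclusion span a space of dimension at
least `δ n`.  (The landed theorem RoundingDirections has `δ √n`, on one path; neither implies the other.)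
`gg`, `SPa`, `UA`, `CL`, `GI`, `AP`, `att` are in Pool/Agent/Helper82/RD/Defs.lean.
-/

set_option autoImplicit false

open Finset MP86d903 Pool.Agent.Helper82.RD

namespace Pool.Agent.Helper12.GD

/-- BAL.  PROOF.  `Ad` is symmetric, so `W7` is (reverse the walk); for `x ∉ A` take the constant walk.  For a set `Y`
disjoint from `A` let `nb Y = {v | ∃ u ∈ Y, Ad u v}`; it is contained in `Y ∪ ⋃ {vs c | c meets Y}`, and at most
`D |Y|` clauses meet `Y`, so `|nb Y| ≤ |Y| + 3 D |Y| = (3 D + 1) |Y|`, and `nb Y` is disjoint from `A`.  `N7 x` is contained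
in the seventh iterate of `nb` on `{x}`.  (Compare `mCNT` in Pool/Agent/Helper16/RD/M_CNT.lean.) -/
def StBAL : Prop :=
  ∀ (ι V : Type) [DecidableEq ι] [Fintype ι] [Fintype V] [DecidableEq V] (vs : ι → Finset V),
    (∀ c, (vs c).card = 3) → ∀ (A : Finset V) (D : ℕ),
    (∀ x, x ∉ A → (univ.filter (fun c => x ∈ vs c)).card ≤ D) →
    (∀ x y, W7 vs A x y → W7 vs A y x) ∧ (∀ x, x ∉ A → W7 vs A x x) ∧
    ∀ x, x ∉ A → (N7 vs A x).card ≤ (3 * D + 1) ^ 7

/-- FAR (atoms which are far apart may be added to `A`).  PROOF.  `J = ⋃_{x ∈ I} att x`, `Z = A ∪ J`.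
`UA`: `disj` by `hAP.dis`.  `pair`: if `|vs c \ A| = 2` and `z ∈ vs c ∩ J`, `z ∈ att x`, `x ∈ I`, then `z ∉ A`,
`att z = att x` (`eqv`) and `att z = vs c \ A` (`pai`), so `vs c \ A ⊆ J`.  `three`: let `|vs c \ A| = 3` and
`z ≠ z' ∈ vs c ∩ J`, `z ∈ att x`, `z' ∈ att x'`.  If `x = x'` then `att x` is a pair atom `vs d \ A`, `|vs d \ A| = 2`
(`isa`), `d ≠ c`, and `hCL.int` gives `|(vs c ∩ vs d) \ A| + 4 ≤ 5`, contradiction with `z, z' ∈ (vs c ∩ vs d) \ A`.  If
`x ≠ x'`: `x, z, z', x'` is a walk of three steps (two elements of the same atom are equal or lie in a common clause;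
fill up with constant steps), contradiction with `hI`.
`SPa`: suppose not; let `S` be a set of minimal cardinality among the nonempty `S` with `|S| ≤ q₀`, all clauses not
inside `Z`, and `gg Z S ≤ 0`.  (1) `S` is connected: if `S = S₁ ∪ S₂` with disjoint nonempty `S₁, S₂` such that no
clause of `S₁` and clause of `S₂` have a common variable outside `Z`, then `gg Z S = gg Z S₁ + gg Z S₂ ≥ 1 + 1`
(`gg Z S_i ≥ 1` by minimality).  (2) Call `x ∈ I` touched if `att x` meets `N(S) = S.biUnion vs`, let `K` be the number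
of touched `x`, and let `p` be the number of the `x ∈ I` such that `att x` has two elements, both in `N(S)`.
By `hGI.add`: `gg Z S = gg A S - ∑_{z ∈ N(S) ∩ J} (2 - m_z) ≥ gg A S - |N(S) ∩ J| ≥ gg A S - K - p`, where
`m_z ≥ 1` is the number of the clauses of `S` through `z` (this is `hGI.low`).  (3) Let `S' = S ∪ {c_x}`, `c_x` the pair
clause of `att x` for the `x` counted by `p`; `c_x ∉ S` as `vs c_x ⊆ Z`; the `c_x` are distinct (disjoint atoms: if
`x ≠ x'` had the same atom then `x' ` would be at distance `≤ 1` from `x`).  `N(S') \ A = N(S) \ A`, so `gg A S' = gg A S - 2 p`.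
`|S'| = |S| + p ≤ q₀ + r ≤ q`, so `3 gg A S' ≥ |S| + p + 1` (`gg3`) and `gg A S' ≥ 2` (`gg2`).  (4) If `K ≤ 1`:
`gg Z S ≥ gg A S' + 2 p - K - p ≥ 2 + p - K ≥ 1`, contradiction.  (5) If `K ≥ 2` then `|S| ≥ 3 K`: for a touched `x`
choose `z_x ∈ att x ∩ N(S)` and `c_x ∈ S` containing `z_x`; let `L_x` be the set of the clauses of `S` at distance `≤ 2` from `c_x` in the
graph on `S` (common variable outside `Z`).  The `L_x` are pairwise disjoint: otherwise there is a walk
`x, z_x, u₁, u₂, u₃, u₄, z_y, y` (`u_i` common variables of consecutive clauses) of seven steps outside `A` between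
`x ≠ y` in `I`, contradiction with `hI`.  Since there are at least two of them, `L_x ≠ S`, and by (1) each of the layers at distance
`0, 1, 2` is nonempty, so `|L_x| ≥ 3`.  Hence `3 gg Z S ≥ 3 gg A S' + 6 p - 3 K - 3 p ≥ |S| + 1 + 4 p - 3 K ≥ 1`,
so `gg Z S ≥ 1`, contradiction. -/
def StFAR : Prop :=
  ∀ (ι V : Type) [DecidableEq ι] [Fintype ι] [Fintype V] [DecidableEq V] (vs : ι → Finset V)
    (q q₀ r : ℕ) (A : Finset V), GI vs → CL vs q A → AP vs A → q₀ + r ≤ q →
    ∀ I : Finset V, (∀ x ∈ I, x ∉ A) → I.card ≤ r →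
    (∀ x ∈ I, ∀ y ∈ I, x ≠ y → ¬ W7 vs A x y) →
    UA vs A (I.biUnion (att vs A)) ∧ SPa vs q₀ (A ∪ I.biUnion (att vs A))

/-- HAX (independent transversal with linear independence, after Haxell).  `N x` is the conflict set of `x`.  If every nonzero
subspace of `C` is seen by at least `2 B` times its dimension many functionals `φ x`, `x ∈ X`, then there is a
conflict free `R ⊆ X` with at most `dim C` elements such that `b ∈ C` and `φ x b = 0` for all `x ∈ R` imply `b = 0`. -/
def StHAX : Prop :=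
  ∀ (X W : Type) [DecidableEq X] [AddCommGroup W] [Module (ZMod 2) W] [FiniteDimensional (ZMod 2) W]
    (C : Submodule (ZMod 2) W) (φ : X → W →ₗ[ZMod 2] ZMod 2) (XS : Finset X)
    (N : X → Finset X) (B : ℕ), 1 ≤ B → (∀ x ∈ XS, x ∈ N x) →
    (∀ x ∈ XS, ∀ y ∈ XS, y ∈ N x → x ∈ N y) → (∀ x ∈ XS, (N x).card ≤ B) →
    (∀ Λ' ≤ C, Λ' ≠ ⊥ → ∃ Y ⊆ XS, (∀ x ∈ Y, ∃ b ∈ Λ', φ x b ≠ 0) ∧
      2 * B * Module.finrank (ZMod 2) Λ' ≤ Y.card) →
    ∃ R ⊆ XS, (∀ x ∈ R, ∀ y ∈ R, x ≠ y → y ∉ N x) ∧ R.card ≤ Module.finrank (ZMod 2) C ∧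
      ∀ b ∈ C, (∀ x ∈ R, φ x b = 0) → b = 0

end Pool.Agent.Helper12.GD
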